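import Pool.Agent.Q23.MV.Pack

/-!
# Exponentials of exponential polynomials in several independent algebraic variables

The number `e^e` is the value at `q = 1` of `e^(e^q)`. Let `F_1, …, F_s` be real exponential polynomials
`∑ c_l e^(α_l · x) x^(k_l)` in several variables `x = (x_1, …, x_r)` with frequencies `α_l ≥ 0`, such that no nontrivial
integer combination of the `F_i` is constant. For points `q` with coordinates in number fields of bounded degree and of
height at most `T`, outside at most `C T^ε` hypersurfaces of bounded degree, the numbers `e^(F_1(q)), …, e^(F_s(q))` satisfy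
no polynomial relation of bounded degree and polynomially bounded height, even with arbitrary constants. In particular this
holds for all numbers `e^(q^a e^(k·q))`, `a, k ∈ {0, …, N}^r`, `(a, k) ≠ (0, 0)`; with `X_j = e^(q_j)` these contain
`e^(X^k)`, `X_j^(X^k)` for all monomials `X^k`, for instance `e^(X_1)`, `X_1^(X_2)`.
-/

set_option autoImplicit false

open Set Filter Topology NumberField

namespace Pool.Agent.Results.MP_58ae59_nt.ExponentialPolynomials

/-- For every compact subset `L` of `U` and all `m`, `g`, `d`, `A` and `ε > 0` there are `D`, `C`, `T₀` such that for every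
number field `F` of degree at most `m`, every embedding `ι` of `F` in `ℂ`, all complex numbers `ξ_1, …, ξ_g` and all
`T ≥ T₀` there are at most `C T^ε` hypersurfaces `Q = 0` of degree at most `D` with the following property. If `x` is a
point with coordinates in `F` outside these hypersurfaces, with image in `L`, whose coordinates are quotients of two
integers of `F` all of whose conjugates have absolute value at most `T`, then no nonzero polynomial `P` of degree at most
`d` in each variable, with coefficients of the form `∑ ξ_a ι(c_a)`, where the `c_a` are integers of `F` all of whose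
conjugates have absolute value at most `T ^ A`, vanishes at the numbers `f y (ι x)`. -/
def FewRelations {X κ : Type} [Fintype X] (U : Set (X → ℂ)) (f : κ → (X → ℂ) → ℂ) : Prop :=
  ∀ L : Set (X → ℂ), IsCompact L → L ⊆ U → ∀ (m g d : ℕ) (A ε : ℝ), 0 < ε →
    ∃ (D : ℕ) (C T₀ : ℝ), ∀ (F : Type) [Field F] [NumberField F], Module.finrank ℚ F ≤ m → ∀ (ι : F →+* ℂ)
      (ξ : Fin g → ℂ) (T : ℝ), T₀ ≤ T → ∃ Φ : Finset (MvPolynomial X ℂ), (Φ.card : ℝ) ≤ C * T ^ ε ∧
        (∀ Q ∈ Φ, Q ≠ 0 ∧ Q.totalDegree ≤ D) ∧
        ∀ x : X → F, (fun j => ι (x j)) ∈ L →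
          (∀ j, ∃ a b : 𝓞 F, b ≠ 0 ∧ (∀ φ : F →+* ℂ, ‖φ a‖ ≤ T ∧ ‖φ b‖ ≤ T) ∧ x j = a / b) →
          (∀ Q ∈ Φ, MvPolynomial.eval (fun j => ι (x j)) Q ≠ 0) →
          ∀ P : MvPolynomial κ ℂ, P ≠ 0 → (∀ y, P.degreeOf y ≤ d) →
            (∀ s, ∃ c : Fin g → 𝓞 F, (∀ a (φ : F →+* ℂ), ‖φ (c a)‖ ≤ T ^ A) ∧ P.coeff s = ∑ a, ξ a * ι (c a)) →
            MvPolynomial.aeval (fun y => f y (fun j => ι (x j))) P ≠ 0

/-- `e^(F_y(x))` with `F_y(x) = ∑_l c_(y l) e^(α_l · x) x^(k_l)`. -/
noncomputable def expF {X κ σ : Type} [Fintype X] [Fintype σ] (α : σ → X → ℝ) (k : σ → X → ℕ) (c : κ → σ → ℝ) (y : κ)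
    (x : X → ℂ) : ℂ :=
  Complex.exp (∑ l, c y l * (Complex.exp (∑ j, α l j * x j) * ∏ j, x j ^ k l j))

theorem general {X κ σ : Type} [Fintype X] [Nonempty X] [Fintype κ] [Fintype σ] (α : σ → X → ℝ) (k : σ → X → ℕ)
    (hinj : Function.Injective fun l => (α l, k l)) (hα : ∀ l j, 0 ≤ α l j) (c : κ → σ → ℝ)
    (hc : ∀ μ : κ → ℤ, (∀ l, (α l ≠ 0 ∨ k l ≠ 0) → ∑ y, (μ y : ℝ) * c y l = 0) → μ = 0) :
    FewRelations (univ : Set (X → ℂ)) (expF α k c) := by
  classical
  intro L hL _ m g d A ε hε
  have H := Q23.MV.mvFewEL (X := X) α k (fun _ _ => 0) (fun l l' h => hinj (by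
      simp only [Prod.mk.injEq, and_true] at h
      exact Prod.ext h.1 h.2)) hα c (fun μ _ h _ => hc μ h) (fun _ => univ) (fun _ => isPreconnected_univ)
    (fun _ => isOpen_univ) (fun _ _ _ => mem_univ _) (fun l j h => absurd rfl h) L hL (fun x _ j _ => mem_univ _)
    m g d A ε hε
  have hf : ∀ (y : κ) (x : X → ℂ), Q23.MV.fL α k (fun _ _ => 0) c y x = expF α k c y x := by
    intro y x
    simp only [Q23.MV.fL, expF, pow_zero, Finset.prod_const_one, mul_one]
  simp only [hf] at H
  exact H

/-- The indices `(a, k) ≠ (0, 0)`. -/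
abbrev Idx (X : Type) (N : ℕ) : Type := {p : (X → Fin (N + 1)) × (X → Fin (N + 1)) // p ≠ (fun _ => 0, fun _ => 0)}

/-- The function `e^(x^a e^(k·x))`. -/
noncomputable def fn {X : Type} [Fintype X] (N : ℕ) (p : Idx X N) (x : X → ℂ) : ℂ :=
  Complex.exp ((∏ j, x j ^ (p.1.1 j : ℕ)) * Complex.exp (∑ j, (p.1.2 j : ℕ) * x j))

theorem special (X : Type) [Fintype X] [Nonempty X] (N : ℕ) : FewRelations (univ : Set (X → ℂ)) (fn N) := by
  classical
  have h := general (X := X) (κ := Idx X N) (σ := Idx X N) (fun l j => ((l.1.2 j : ℕ) : ℝ)) (fun l j => (l.1.1 j : ℕ))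
    (by
      intro l l' h
      simp only [Prod.mk.injEq] at h
      apply Subtype.ext
      refine Prod.ext ?_ ?_
      · funext j
        exact Fin.ext (congrFun h.2 j)
      · funext j
        have := congrFun h.1 j
        exact Fin.ext (by exact_mod_cast this)) (fun l j => Nat.cast_nonneg _) (fun y l => if y = l then 1 else 0) (by
      intro μ h1
      funext y
      have h2 := h1 y (by
        by_contra hcon
        push Not at hcon
        apply y.2
        refine Prod.ext ?_ ?_
        · funext j
          exact Fin.ext (congrFun hcon.2 j)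
        · funext j
          have := congrFun hcon.1 j
          simp only [Pi.zero_apply, Nat.cast_eq_zero] at this
          exact Fin.ext this)
      simpa using h2)
  have hf : ∀ (y : Idx X N) (x : X → ℂ), expF (fun (l : Idx X N) j => ((l.1.2 j : ℕ) : ℝ)) (fun l j => (l.1.1 j : ℕ))
      (fun y l => if y = l then 1 else 0) y x = fn N y x := by
    intro y x
    simp only [expF, fn]
    congr 1
    rw [Finset.sum_eq_single y]
    · simp only [if_true, Complex.ofReal_one, one_mul, Complex.ofReal_natCast]
      ring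
    · intro l _ hl
      rw [if_neg (fun h => hl h.symm), Complex.ofReal_zero, zero_mul]
    · intro h
      exact absurd (Finset.mem_univ _) h
  intro L hL hLU m g d A ε hε
  have H := h L hL hLU m g d A ε hε
  simp only [hf] at H
  exact H

/-- Two assertions: the general criterion (the condition says that the pairs `(α_l, k_l)` are different, `α_l ≥ 0`, and that
no nontrivial integer combination of the `F_y` is constant), and the one for the functions `e^(x^a e^(k·x))`. -/
theorem result :
    (∀ (X κ σ : Type) [Fintype X] [Nonempty X] [Fintype κ] [Fintype σ] (α : σ → X → ℝ) (k : σ → X → ℕ)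
      (c : κ → σ → ℝ), (Function.Injective fun l => (α l, k l)) → (∀ l j, 0 ≤ α l j) →
      (∀ μ : κ → ℤ, (∀ l, (α l ≠ 0 ∨ k l ≠ 0) → ∑ y, (μ y : ℝ) * c y l = 0) → μ = 0) →
      FewRelations (univ : Set (X → ℂ)) (expF α k c)) ∧
    ∀ (X : Type) [Fintype X] [Nonempty X] (N : ℕ), FewRelations (univ : Set (X → ℂ)) (fn N) :=
  ⟨fun _ _ _ _ _ _ _ α k c h1 h2 h3 => general α k h1 h2 c h3, fun X _ _ N => special X N⟩

end Pool.Agent.Results.MP_58ae59_nt.ExponentialPolynomials
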