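import Mathlib
import Pool.Agent.Q29.EqTM
import Pool.Agent.Q165.Mono

/-!
# The numbers `e ^ (a + k e)`: at every scale at most one is exceptional

If a number `x` is algebraic of degree at most `D`, some value `P(x)` of a nonconstant integer polynomial of degree at
most `D` is an integer, and its multiples are not uniformly distributed modulo one. The property `AllGood` at the scale
`N` says that for all nonconstant integer polynomials `P` of degree at most `D` and height at most `N ^ κ` and all `M`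
from `N` to `N ^ A`, the multiples of `P(x)` by the integers up to `M`, by their `k`-th powers, `k ≤ K` (even with a real
polynomial of degree less than `k` added), and by the primes up to `M` in each residue class modulo `d ≤ M ^ κ`, are
uniformly distributed modulo one with an error `M ^ (1 - κ)`.

We consider finitely many numbers `e ^ (a + k e)` whose exponents `a + k e`, `k ≠ 0`, are pairwise non-proportional over
the rational numbers, for instance `e ^ e`, `e ^ (e + 1)`, `e ^ (e - 1)`, `e ^ (2 e + 1)`, and show that at every large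
scale at most one of them fails to have this property. So either `e ^ e` or all the others behave like transcendental
numbers at the given scale.

The proof uses the measure of transcendence of `e` (and of its rational powers) and the pairs of polynomials with a
small value from the starting files `Pool/Agent/TH456/TM/`; the power map reduces monomials to pairs `s`, `x s`
(`Pool/Agent/Q165/Mono.lean`). The passage to uniform distribution is `Pool/Agent/Q29/EqTM.lean`, with an inverse theorem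
for the sums of Weyl and a form of the estimate of Vinogradov for sums over primes with a power saving from the starting
files (`H373R2/NB`, `W110/HV`).
-/

set_option autoImplicit false

namespace Pool.Agent.Results.MP_58ae59_nt.ExponentsInLattice

open Finset Polynomial

/-- The multiples of `x` are uniformly distributed at the scale `M`, with a power saving, along all polynomials of degree
at most `K` and along the primes of all residue classes:

* for every nonzero integer `b` with `|b| ≤ M ^ κ`, every `1 ≤ k ≤ K` and every real polynomial `R` of degree less than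
  `k`, the number of `0 ≤ n < M` with the fractional part of `b x n ^ k + R(n)` in `[u, v)` is `(v - u) M` up to
  `M ^ (1 - κ)`, for all `0 ≤ u ≤ v ≤ 1`;
* for every such `b`, every `1 ≤ d ≤ M ^ κ`, every `r` and every real `β`, the number of primes `p ≤ M` with
  `p ≡ r (mod d)` and the fractional part of `b x p + β` in `[u, v)` is `(v - u)` times the number of all the primes
  `p ≤ M` with `p ≡ r (mod d)`, up to `M ^ (1 - κ)`. -/
def Good (κ : ℝ) (K M : ℕ) (x : ℝ) : Prop :=
  (∀ b : ℤ, b ≠ 0 → |(b : ℝ)| ≤ (M : ℝ) ^ κ → ∀ k : ℕ, 1 ≤ k → k ≤ K → ∀ R : ℝ[X], R.degree < k →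
    ∀ u v : ℝ, 0 ≤ u → u ≤ v → v ≤ 1 →
      |(((range M).filter fun n : ℕ => u ≤ Int.fract (b * x * (n : ℝ) ^ k + R.eval (n : ℝ)) ∧
          Int.fract (b * x * (n : ℝ) ^ k + R.eval (n : ℝ)) < v).card : ℝ) - (v - u) * M| ≤
        (M : ℝ) ^ (1 - κ)) ∧
  (∀ b : ℤ, b ≠ 0 → |(b : ℝ)| ≤ (M : ℝ) ^ κ → ∀ d r : ℕ, 1 ≤ d → (d : ℝ) ≤ (M : ℝ) ^ κ → ∀ β : ℝ,
    ∀ u v : ℝ, 0 ≤ u → u ≤ v → v ≤ 1 →
      |(((range (M + 1)).filter fun p : ℕ => (p.Prime ∧ p ≡ r [MOD d]) ∧
          (u ≤ Int.fract (b * x * p + β) ∧ Int.fract (b * x * p + β) < v)).card : ℝ) -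
        (v - u) * ((range (M + 1)).filter fun p : ℕ => p.Prime ∧ p ≡ r [MOD d]).card| ≤
        (M : ℝ) ^ (1 - κ))

/-- All the values `P(x)`, `P` a nonconstant integer polynomial of degree at most `D` with coefficients bounded by
`N ^ κ`, have uniformly distributed multiples at all the scales `M` from `N` to `N ^ A`. If `x` is algebraic of degree at
most `D`, then this fails for all large `N`, since some `P(x)` is an integer. -/
def AllGood (x : ℝ) (D K : ℕ) (A κ : ℝ) (N : ℕ) : Prop :=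
  ∀ P : ℤ[X], 0 < P.natDegree → P.natDegree ≤ D → (∀ n, |(P.coeff n : ℝ)| ≤ (N : ℝ) ^ κ) →
    ∀ M : ℕ, N ≤ M → (M : ℝ) ≤ (N : ℝ) ^ A → Good κ K M (aeval x P)

theorem good_iff (κ : ℝ) (K M : ℕ) (x : ℝ) : Good κ K M x ↔ Pool.Agent.Q29.Eqd.Good κ K M x := Iff.rfl

theorem allGood_iff (x : ℝ) (D K : ℕ) (A κ : ℝ) (N : ℕ) :
    AllGood x D K A κ N ↔ Pool.Agent.Q29.Eqd.AllGood x D K A κ N := by
  unfold AllGood Pool.Agent.Q29.Eqd.AllGood
  simp only [good_iff]

/-- monomials in `z = e` or `z = π` and a real number `t` -/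
theorem core (z : ℝ) (hz : z = Real.exp 1 ∨ z = Real.pi) (S : Finset (ℤ × ℤ)) (hS : ∀ e ∈ S, e.2 ≠ 0)
    (hSS : ∀ e ∈ S, ∀ e' ∈ S, e ≠ e' → e.1 * e'.2 ≠ e'.1 * e.2) (D K : ℕ) (A : ℝ) (hA : 1 ≤ A) :
    ∃ κ : ℝ, 0 < κ ∧ ∀ t : ℝ, t ≠ 0 → ∃ N₀ : ℕ, ∀ N : ℕ, N₀ ≤ N →
        {e | e ∈ S ∧ ¬ AllGood (z ^ e.1 * t ^ e.2) D K A κ N}.Subsingleton := by
  have hz0 : 0 < z := by
    rcases hz with rfl | rfl
    · exact Real.exp_pos 1
    · exact Real.pi_pos
  have hm : Pool.Agent.TH456.TM.MeasT ((z : ℝ) : ℂ) := by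
    rcases hz with rfl | rfl
    · exact Pool.Agent.TH456.TM.measT_e
    · exact Pool.Agent.TH456.TM.measT_pi
  obtain ⟨κ, hκ, h⟩ := Pool.Agent.Q165.Mono.fam_mono z hz0 hm S hS hSS D
  obtain ⟨κ', hκ', hE⟩ := Pool.Agent.Q29.Eqd.allGood_of_TM (ι := S) D K κ A hκ.le hA
  refine ⟨κ', hκ', fun t ht => ?_⟩
  obtain ⟨C, hC, h1, h2⟩ := h t (by exact_mod_cast ht)
  have hcast : ∀ e : ℤ × ℤ, ((z ^ e.1 * t ^ e.2 : ℝ) : ℂ) = (z : ℂ) ^ e.1 * (t : ℂ) ^ e.2 :=
    fun e => by rw [Complex.ofReal_mul, Complex.ofReal_zpow, Complex.ofReal_zpow]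
  obtain ⟨N₀, hN₀⟩ := hE (fun i : S => z ^ i.1.1 * t ^ i.1.2) ⟨C, hC, by
    intro i j hij P Q hP hQ hPD hQD H hPH hQH
    rw [hcast, hcast]
    exact h1 i j hij P Q hP hQ hPD hQD H hPH hQH⟩
  refine ⟨N₀, fun N hN i hi j hj => ?_⟩
  rw [Set.mem_ofPred_eq] at hi hj
  have hsub := hN₀ N hN
  have h3 : (⟨i, hi.1⟩ : S) = ⟨j, hj.1⟩ := by
    apply hsub
    · rw [Set.mem_ofPred_eq, ← allGood_iff]
      exact hi.2
    · rw [Set.mem_ofPred_eq, ← allGood_iff]
      exact hj.2
  exact congrArg Subtype.val h3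

/-- **The numbers `e ^ (a + k e)`.** Let `S` be a finite set of pairs of integers `(a, k)`, `k ≠ 0`, no two of them
proportional, `D`, `K` natural numbers and `A ≥ 1`. There are `κ > 0` and `N₀` such that for every `N ≥ N₀` at most one of
the numbers `e ^ (a + k e)`, `(a, k) ∈ S`, does not have the property `AllGood`. -/
theorem result (S : Finset (ℤ × ℤ)) (hS : ∀ e ∈ S, e.2 ≠ 0)
    (hSS : ∀ e ∈ S, ∀ e' ∈ S, e ≠ e' → e.1 * e'.2 ≠ e'.1 * e.2) (D K : ℕ) (A : ℝ) (hA : 1 ≤ A) :
    ∃ κ : ℝ, 0 < κ ∧ ∃ N₀ : ℕ, ∀ N : ℕ, N₀ ≤ N →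
      {e | e ∈ S ∧ ¬ AllGood (Real.exp (e.1 + e.2 * Real.exp 1)) D K A κ N}.Subsingleton := by
  obtain ⟨κ, hκ, h⟩ := core (Real.exp 1) (Or.inl rfl) S hS hSS D K A hA
  obtain ⟨N₀, hN₀⟩ := h (Real.exp (Real.exp 1)) (Real.exp_pos _).ne'
  refine ⟨κ, hκ, N₀, fun N hN => ?_⟩
  have he : ∀ e : ℤ × ℤ, Real.exp (e.1 + e.2 * Real.exp 1) =
      Real.exp 1 ^ e.1 * Real.exp (Real.exp 1) ^ e.2 := fun e => by
    rw [← Real.rpow_intCast, ← Real.rpow_intCast, ← Real.exp_mul, ← Real.exp_mul, one_mul, Real.exp_add,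
      mul_comm (Real.exp 1)]
  simp only [he]
  exact hN₀ N hN

end Pool.Agent.Results.MP_58ae59_nt.ExponentsInLattice
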