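import Pool.Agent.Q23.AQ.Sc

/-!
# The power towers `x`, `x ^ x`, `x ^ (x ^ x)`, … of `x = g ^ q` at almost all rational numbers `q`

Let `g > 1` be a real number, for instance `g = e`. For a rational number `q` put `x = g ^ q` and `t_0 = x`,
`t_{k+1} = x ^ (t_k)`; for `q = 1` the number `t_1` is `g ^ g`. For all but few rational numbers `q` of `[a, b]` (and for
all but few `n`-tuples of them simultaneously) the numbers `π`, `t_0`, …, `t_s` satisfy no polynomial relation, not even
an approximate one, of given degree and polynomially bounded height.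
-/

set_option autoImplicit false

open Set Filter Topology

namespace Pool.Agent.Results.MP_58ae59_nt.PowerTowersAtRationals

/-- The power towers of `x`: `tower x 0 = x`, `tower x (k + 1) = x ^ (tower x k)`. -/
noncomputable def tower (x : ℝ) : ℕ → ℝ
  | 0 => x
  | k + 1 => x ^ tower x k

/-- The numbers `π` and `tower (g ^ (q_j)) k`, `j = 1, …, n`, `k = 0, …, s`. -/
noncomputable def values {n s : ℕ} (g : ℝ) (q : Fin n → ℚ) : Option (Fin n × Fin (s + 1)) → ℝ
  | none => Real.pi
  | some (j, k) => tower (g ^ (q j : ℝ)) k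

/-- The `n`-tuples of rational numbers in `[a, b]` with denominators at most `T` for which some nonzero polynomial in
`(s + 1) n + 1` variables with integer coefficients of absolute value at most `T ^ A`, of degree at most `d` in each
variable, takes at the numbers `values g q` a value of absolute value at most `T ^ (-B)`. -/
def Exceptional (g : ℝ) (n s d : ℕ) (a b A B T : ℝ) : Set (Fin n → ℚ) :=
  {q | (∀ j, a ≤ q j ∧ q j ≤ b ∧ ((q j).den : ℝ) ≤ T) ∧
    ∃ P : MvPolynomial (Option (Fin n × Fin (s + 1))) ℤ, P ≠ 0 ∧ (∀ x, P.degreeOf x ≤ d) ∧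
      (∀ c, |((P.coeff c : ℤ) : ℝ)| ≤ T ^ A) ∧ |MvPolynomial.aeval (values g q) P| ≤ T ^ (-B)}

/-- the functions -/
noncomputable def u (g : ℝ) (k : ℕ) (t : ℝ) : ℝ := tower (g ^ t) k

theorem u_pos {g : ℝ} (hg : 1 < g) (k : ℕ) (t : ℝ) : 0 < u g k t := by
  have hx : 0 < g ^ t := Real.rpow_pos_of_pos (by linarith) t
  cases k with
  | zero => exact hx
  | succ k => exact Real.rpow_pos_of_pos hx _

theorem u_log0 {g : ℝ} (hg : 1 < g) (t : ℝ) : Real.log (u g 0 t) = Real.log g * t := by
  show Real.log (g ^ t) = _
  rw [Real.log_rpow (by linarith)]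
  ring

theorem u_log {g : ℝ} (hg : 1 < g) (k : ℕ) (t : ℝ) : Real.log (u g (k + 1) t) = Real.log g * (t * u g k t) := by
  show Real.log ((g ^ t) ^ tower (g ^ t) k) = _
  rw [Real.log_rpow (Real.rpow_pos_of_pos (by linarith) t), Real.log_rpow (by linarith)]
  unfold u
  ring

theorem u_top {g : ℝ} (hg : 1 < g) (k : ℕ) : Tendsto (u g k) atTop atTop := by
  have hl : 0 < Real.log g := Real.log_pos hg
  have key : ∀ f : ℝ → ℝ, Tendsto (fun t => Real.log (f t)) atTop atTop → (∀ t, 0 < f t) → Tendsto f atTop atTop := by
    intro f hf hpos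
    refine (Real.tendsto_exp_atTop.comp hf).congr fun t => ?_
    exact Real.exp_log (hpos t)
  induction k with
  | zero =>
    refine key _ ?_ (u_pos hg 0)
    simp only [u_log0 hg]
    exact tendsto_id.const_mul_atTop hl
  | succ k ih =>
    refine key _ ?_ (u_pos hg (k + 1))
    simp only [u_log hg]
    exact (tendsto_id.atTop_mul_atTop₀ ih).const_mul_atTop hl

theorem u_an {g : ℝ} (hg : 1 < g) (k : ℕ) (t : ℝ) : AnalyticAt ℝ (u g k) t := by
  have h0 : AnalyticAt ℝ (fun t : ℝ => g ^ t) t := Q23.AQ.an_rpow analyticAt_const analyticAt_id (by linarith)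
  induction k with
  | zero => exact h0
  | succ k ih => exact Q23.AQ.an_rpow h0 ih (Real.rpow_pos_of_pos (by linarith) t)

theorem u_ratio {g : ℝ} (hg : 1 < g) (k : ℕ) : Tendsto (fun t => u g k t / u g (k + 1) t) atTop (𝓝 0) := by
  have hl : 0 < Real.log g := Real.log_pos hg
  have h := (Q23.AQ.pow_div_exp 1).comp (u_top hg k)
  refine squeeze_zero' (Eventually.of_forall fun t => (div_pos (u_pos hg k t) (u_pos hg (k + 1) t)).le) ?_ h
  filter_upwards [eventually_ge_atTop (Real.log g)⁻¹] with t ht
  simp only [Function.comp, pow_one]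
  refine div_le_div_of_nonneg_left (u_pos hg k t).le (Real.exp_pos _) ?_
  rw [← Real.exp_log (u_pos hg (k + 1) t), Real.exp_le_exp, u_log hg]
  have h1 : 1 ≤ Real.log g * t := by
    have := mul_le_mul_of_nonneg_left ht hl.le
    rwa [mul_inv_cancel₀ hl.ne'] at this
  have h2 := mul_le_mul_of_nonneg_right h1 (u_pos hg k t).le
  linarith

/-- the scale -/
noncomputable def L (g : ℝ) {s : ℕ} (l : Fin (s + 2)) (t : ℝ) : ℝ :=
  if (l : ℕ) < s then t * u g (s - 1 - l) t else if (l : ℕ) = s then t else Real.log t

theorem scales {g : ℝ} (hg : 1 < g) (s : ℕ) : Q23.AQ.Scales (L g (s := s)) := by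
  refine Q23.AQ.scales_fin _ ?_ ?_
  · intro l
    unfold L
    split_ifs with h h'
    · exact tendsto_id.atTop_mul_atTop₀ (u_top hg _)
    · exact tendsto_id
    · exact Real.tendsto_log_atTop
  · intro i h
    have hi : i ≤ s := by omega
    unfold L
    rcases lt_or_eq_of_le hi with hi | hi
    · simp only [hi, if_true]
      by_cases h2 : i + 1 < s
      · simp only [h2, if_true]
        have h3 : s - 1 - i = (s - 1 - (i + 1)) + 1 := by omega
        rw [h3]
        refine (u_ratio hg (s - 1 - (i + 1))).congr' ?_
        filter_upwards [eventually_gt_atTop 0] with t ht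
        have := (u_pos hg (s - 1 - (i + 1) + 1) t).ne'
        field_simp
      · obtain rfl : s = i + 1 := by omega
        have h3 : i + 1 - 1 - i = 0 := by omega
        simp only [lt_irrefl, if_false, if_true, h3]
        have h6 := (u_top hg 0).inv_tendsto_atTop
        refine h6.congr' ?_
        filter_upwards [eventually_gt_atTop 0] with t ht
        have := (u_pos hg 0 t).ne'
        simp only [Pi.inv_apply]
        field_simp
    · subst hi
      have h6 : ¬ (i + 1 < i) := by omega
      have h7 : ¬ (i + 1 = i) := by omega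
      simp only [lt_irrefl, h6, h7, if_false, if_true]
      exact Q23.AQ.log_div_id

/-- Let `g > 1`, `a < b`, let `n ≥ 1`, `s`, `d` and `A ≥ 0` be given and let
`β > 2 - 2 / ((d + 1)^((s + 1) n + 1) + 1)`. There are `B` and `C` such that for all `T ≥ 1` the number of exceptional
`n`-tuples is at most `C T^(2 (n - 1) + β)` (whereas the number of all `n`-tuples of rational numbers in `[a, b]` with
denominators at most `T` is about `T ^ (2 n)`). -/
theorem result (g : ℝ) (hg : 1 < g) (n s d : ℕ) (hn : 1 ≤ n) (a b : ℝ) (hab : a < b) (A β : ℝ) (hA : 0 ≤ A)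
    (hβ : 2 - 2 / (((d : ℝ) + 1) ^ ((s + 1) * n + 1) + 1) < β) :
    ∃ B C : ℝ, ∀ T : ℝ, 1 ≤ T → (Exceptional g n s d a b A B T).Finite ∧
      ((Exceptional g n s d a b A B T).ncard : ℝ) ≤ C * T ^ (2 * ((n : ℝ) - 1) + β) := by
  have hl : Real.log g ≠ 0 := (Real.log_pos hg).ne'
  have hind := Q23.AQ.rind (d := d) (fun k : Fin (s + 1) => u g k) (L g) (scales hg s) (Fin.last (s + 1))
    (Eventually.of_forall fun t => by simp [L])
    (fun k l => if (l : ℕ) + k = s then Real.log g else 0) (fun _ _ => 0)
    (fun k => Eventually.of_forall fun t => u_pos hg k t)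
    (fun k => by
      refine Eventually.of_forall fun t => ?_
      rw [add_zero]
      have hk := k.2
      rw [Finset.sum_eq_single (⟨s - k, by omega⟩ : Fin (s + 2))]
      · have h1 : s - (k : ℕ) + k = s := by omega
        simp only [h1, if_true]
        obtain ⟨k, hk'⟩ := k
        rcases k with _ | k
        · simp only [L, Nat.sub_zero, lt_irrefl, if_false, if_true]
          exact u_log0 hg t
        · have h2 : s - (k + 1) < s := by omega
          have h3 : s - 1 - (s - (k + 1)) = k := by omega
          simp only [L, h2, if_true, h3]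
          exact u_log hg k t
      · intro l _ hl'
        have h1 : ¬ ((l : ℕ) + k = s) := fun h => hl' (Fin.ext (by simp; omega))
        simp only [h1, if_false, zero_mul]
      · intro h
        exact absurd (Finset.mem_univ _) h)
    (fun k l => by simp)
    (by
      intro m r h
      funext k
      have hk := k.2
      have h1 := h ⟨s - k, by omega⟩
      rw [Finset.sum_eq_single k] at h1
      · have h2 : s - (k : ℕ) + k = s := by omega
        have h3 : ¬ ((⟨s - (k : ℕ), by omega⟩ : Fin (s + 2)) = Fin.last (s + 1)) := by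
          intro h4
          have := congrArg Fin.val h4
          simp at this
          omega
        simp only [h2, if_true, h3, if_false, mul_eq_zero, hl, or_false] at h1
        exact_mod_cast h1
      · intro l _ hl'
        have h4 : ¬ (s - (k : ℕ) + (l : ℕ) = s) := fun h5 => hl' (Fin.ext (by omega))
        simp only [h4, if_false, mul_zero]
      · intro h5
        exact absurd (Finset.mem_univ _) h5)
    a b hab (fun k t _ => u_an hg k t)
  obtain ⟨B, C, h⟩ := TH659.AQ.polysR (n := n) (d := d) (fun k : Fin (s + 1) => u g k) a b hab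
    (fun k t _ => u_an hg k t) hind hn A β hA (by rw [Fintype.card_fin]; exact hβ)
  refine ⟨B, C, fun T hT => ?_⟩
  have hv : ∀ q : Fin n → ℚ, values (s := s) g q = TH659.AQ.vR (fun k : Fin (s + 1) => u g k) q := by
    intro q
    funext x
    rcases x with _ | ⟨j, k⟩ <;> rfl
  have hE : Exceptional g n s d a b A B T = TH659.AQ.ExR d (fun k : Fin (s + 1) => u g k) a b A B T := by
    ext q
    simp only [Exceptional, TH659.AQ.ExR, hv]
  rw [hE]
  exact h T hT

end Pool.Agent.Results.MP_58ae59_nt.PowerTowersAtRationals
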